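import Mathlib
import Pool.Agent.Work.MP_a3494b_an.Bohr

set_option autoImplicit false

open MeasureTheory
open scoped ComplexConjugate ENNReal

namespace Pool.Agent.Results.MP_a3494b_an.RieszPreimage

/-- The infinite torus `𝕋^∞`, the countable product of circles `ℝ/ℤ`. -/
abbrev Torus : Type := ℕ → UnitAddCircle

/-- Haar probability measure `m_∞` on `𝕋^∞`: the product of the normalised Haar measures. -/
noncomputable abbrev mInf : Measure Torus :=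
  Measure.infinitePi (fun _ : ℕ => AddCircle.haarAddCircle (T := 1))

/-- The coordinate `z_j = exp(2πi x_j)` (the variable attached to the `j`-th prime). -/
noncomputable def z (j : ℕ) (x : Torus) : ℂ := fourier 1 (x j)

/-- The monomial `z^ν = ∏_j z_j^{ν_j}` of a finitely supported `ν` with all `ν_j ≥ 0`. -/
noncomputable def mono (ν : ℕ →₀ ℕ) (x : Torus) : ℂ := ν.prod (fun j k => z j x ^ k)

/-- The positive integer `n(ν) = ∏_j p_j^{ν_j}`, `p_j` the `j`-th prime (`p_0 = 2`). -/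
noncomputable def bohr (ν : ℕ →₀ ℕ) : ℕ := ν.prod (fun j k => (Nat.nth Nat.Prime j) ^ k)

/-- The coefficients of `φ₀`: `1` at `n = 1` and `1 / (√n log n)` at `n ≥ 2`. -/
noncomputable def coeff (n : ℕ) : ℝ := if n = 1 then 1 else 1 / (Real.sqrt n * Real.log n)

/-- `f` is (a representative of) `φ₀`: the `L²(𝕋^∞)`-sum, over all `ν` with all `ν_j ≥ 0`, of
`coeff (n(ν)) z^ν`. -/
def IsPhi0 (f : Torus → ℂ) : Prop :=
  MemLp f 2 mInf ∧
    Filter.Tendsto (fun s : Finset (ℕ →₀ ℕ) =>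
      eLpNorm (fun x => f x - ∑ ν ∈ s, (coeff (bohr ν) : ℂ) * mono ν x) 2 mInf)
      Filter.atTop (nhds 0)

/-- The polynomial `∑ b_ν z^ν` on `𝕋^∞`; it is the Bohr lift of the Dirichlet polynomial
`∑ b_ν n(ν)^{-s}`. -/
noncomputable def lift (b : (ℕ →₀ ℕ) →₀ ℂ) (x : Torus) : ℂ :=
  b.sum (fun ν c => c * mono ν x)

/-- `H²(𝕋^∞)`: the closed span in `L²(𝕋^∞)` of the `z^ν` with all `ν_j ≥ 0`. -/
def IsH2 (f : Torus → ℂ) : Prop :=
  MemLp f 2 mInf ∧ ∀ ε : ℝ≥0∞, 0 < ε →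
    ∃ b : (ℕ →₀ ℕ) →₀ ℂ, eLpNorm (fun x => f x - lift b x) 2 mInf < ε

/-- `f = P g`: `f` is the orthogonal projection of `g` onto `H²(𝕋^∞)`, that is, `f ∈ H²` and
`g - f` is orthogonal to `H²`. -/
def IsRieszProjection (g f : Torus → ℂ) : Prop :=
  IsH2 f ∧ ∀ h : Torus → ℂ, IsH2 h → ∫ x, conj (h x) * (g x - f x) ∂mInf = 0

/-- The Dirichlet polynomial `F(s) = ∑ b_ν n(ν)^{-s}` at a real point `σ`. -/
noncomputable def dirichlet (b : (ℕ →₀ ℕ) →₀ ℂ) (σ : ℝ) : ℂ :=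
  b.sum (fun ν c => c * (bohr ν : ℂ) ^ (-(σ : ℂ)))

/-- The `ℋ¹` norm of the Dirichlet polynomial: the `L¹(𝕋^∞)` norm of its Bohr lift. -/
noncomputable def normH1 (b : (ℕ →₀ ℕ) →₀ ℂ) : ℝ := ∫ x, ‖lift b x‖ ∂mInf

theorem result :
    (∃ g : Torus → ℂ, MemLp g ⊤ mInf ∧ ∃ f : Torus → ℂ, IsPhi0 f ∧ IsRieszProjection g f) ∧
    ∃ C : ℝ, ∀ b : (ℕ →₀ ℕ) →₀ ℂ,
      ∫ σ in (1 / 2 : ℝ)..(3 / 2), ‖dirichlet b σ‖ ≤ C * normH1 b := by
  refine ⟨?_, 4 * Pool.Agent.Work.MP_a3494b_an.C0,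
    fun b => Pool.Agent.Work.MP_a3494b_an.carleson b⟩
  obtain ⟨g, hg, f, hf, h1, h2, h3⟩ := Pool.Agent.Work.MP_a3494b_an.exists_preimage_fun
  refine ⟨g, hg, f, ⟨hf, ?_⟩, ⟨hf, h2⟩, fun h hh => h3 h hh.1 hh.2⟩
  have e : ∀ n : ℕ, coeff n = Pool.Agent.Work.MP_a3494b_an.cf n := by
    intro n
    unfold coeff Pool.Agent.Work.MP_a3494b_an.cf
    rw [one_div]
  simp_rw [e]
  exact h1

end Pool.Agent.Results.MP_a3494b_an.RieszPreimage
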